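import Pool.Agent.Q283.EN.All

/-!
# The exact law of the Selmer groups of the cubic twists over every number field containing the third roots of unity

Let `F` be any number field which contains a primitive third root of unity. The curves `E_D : y² + D y = x³`, `D ∈ F^*`, are the
cubic twists over `F` of `y² + y = x³` (over `F` the curve `E_D` is isomorphic to `x³ + y³ = D`, and to `E_{D a³}`). The Selmer
group of the endomorphism `√-3` is the group of the classes `a ∈ F^*` modulo cubes for which the diagonal cubic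
`w³ = a² u³ + a D s³` has points over all completions; it contains the powers of `D`.

Theorem. (1) For every `D` which is no cube the number of the classes is `3^(r+1)` for some `r ≥ 0`, and
`3^(rank E_D(F)) · #Ш(E_D / F)[3] ≤ 9^r`; the group `E_D(F)` is finite and `Ш(E_D / F)[3^∞] = 0` if and only if `r = 0`.

(2) Prescribe `D` up to cubes in the completions at all places above the prime numbers `≤ y` (it is equal to `D₀` there), and the
orders `z_i ≠ 0` modulo `3` of `D` at `k` further primes `q_0, …, q_(k-1)`, of norms `≤ X_0, …, X_(k-1)` (the order is divisible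
by `3` at all other primes). For large `k`, `X_0`, then `X_1` large in terms of `X_0`, and so on, the share of the `D` with
exactly `3^(r+1)` classes tends to

`α(r) = ∏_(i ≥ 0) (1 - 3^(-2i-1)) / ∏_(i = 1..r) (3^i - 1)`,

the probability that a large random symmetric matrix over `F_3` has corank `r`; in particular the share of the `D` such that
`E_D(F)` is finite and `Ш(E_D / F)[3^∞] = 0` tends to `α(0) = 0.6390…`. The mean number of the classes is at most `6 + ε`.

Proof. The engine of helper7's project LK (tables of cubic residue symbols of the `q_i`, equidistributed by Chebotarev's theorem and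
the cubic law of reciprocity over `F`, deduced from Artin's law) describes the Selmer group by a system of linear equations. New:
if the local groups at the places above the primes `≤ y` are isotropic for the Hilbert symbol and as large as possible, and if
the vectors `φ_j` of the symbols of the units at the `q_j` span `F_3^f`, then the solutions are the radical of a symmetric
bilinear form `S_0(φ) - ∑_(i < j) t_ij z_i z_j (Y_i / z_i - Y_j / z_j)²` on a space of dimension `k - 1 - h`, `h ≤ f`, and since the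
`t_ij` are uniformly distributed and independent, this form is uniformly distributed. The local groups are as large as possible:
`#E_D(F_v) / √-3 E_D(F_v) = 3 · 3^([F_v : ℚ_3] / 2)` at the places above `3`, from the filtration of `E_D(F_v)`.

`HalfOfTheCubicTwists` (helper7) had the share `1/2` instead of `α(0)`.  The parts were proved together with helpers 7, 14, 22,
26, 38, 53, 65, 68, 121, 123, 124, 129, 150, 153, 162, 164, 176, 181, 190, 193, 195, 208, 211, 222, 223, 224, 238, 241, 251, 262,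
265, 275, 277, 285 and 296.
-/

set_option autoImplicit false

namespace Pool.Agent.Results.MP_78d38b_nt.ExactLawCubicTwists

open NumberField IsDedekindDomain Filter Topology WeierstrassCurve
open Pool.Agent.TH841.NF.D (Sha)
open Pool.Agent.TH841.SH.D (Pt)

/-- The curve `E_D : y² + D y = x³`. -/
def curve {F : Type} [Field F] (D : F) : WeierstrassCurve F := ⟨0, 0, D, 0, 0⟩

section Ensemble

variable {F : Type} [Field F] [NumberField F]

/-- `E_D(F)` is finite and the `3`-primary part of `Ш(E_D / F)` is trivial. -/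
def FiniteAndTrivial (D : F) : Prop :=
  Finite (curve D).toAffine.Point ∧ ∀ (n : ℕ) (x : Sha (curve D)), 3 ^ n • x = 0 → x = 0

/-- The rank of the group `E_D(F)` over `ℤ`. -/
noncomputable def rank (D : F) : ℕ := Module.finrank ℤ (Pt (curve D) F)

/-- The elements of `Ш(E_D / F)` which are killed by `3`. -/
def ShaThree (D : F) : Type := {x : Sha (curve D) // (3 : ℕ) • x = 0}

/-- `a ≠ 0`, and the diagonal cubic `w³ = a² u³ + a D s³` has a point over all completions of `F` at its finite places. -/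
def Solvable (D a : F) : Prop :=
  ∀ v : HeightOneSpectrum (𝓞 F), a ≠ 0 ∧ ∃ u w s : v.adicCompletion F, (u ≠ 0 ∨ w ≠ 0 ∨ s ≠ 0) ∧
    w ^ 3 = (a : v.adicCompletion F) ^ 2 * u ^ 3 + (a : v.adicCompletion F) * (D : v.adicCompletion F) * s ^ 3

/-- There are exactly `N` classes modulo cubes of elements `a` with `Solvable D a`. -/
def SelmerOrder (D : F) (N : ℕ) : Prop :=
  ∃ a : Fin N → F, (∀ i, Solvable D (a i)) ∧ (∀ i j, i ≠ j → ¬ ∃ x : F, a i / a j = x ^ 3) ∧
    ∀ b, Solvable D b → ∃ i, ∃ x : F, b / a i = x ^ 3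

/-- The order of `a` at `v` modulo `3`. -/
noncomputable def orderMod (v : HeightOneSpectrum (𝓞 F)) (a : F) : ZMod 3 :=
  -((WithZero.log (v.valuation F a) : ℤ) : ZMod 3)

/-- `a` is the cube of a nonzero element of the completion of `F` at `v`. -/
def CubeAt (v : HeightOneSpectrum (𝓞 F)) (a : F) : Prop :=
  a ≠ 0 ∧ ∃ s : v.adicCompletion F, (a : v.adicCompletion F) = s ^ 3

/-- `v` lies above a prime number `l ≤ y`. -/
def Small (y : ℕ) (v : HeightOneSpectrum (𝓞 F)) : Prop :=
  ∃ l : ℕ, l.Prime ∧ l ≤ y ∧ (l : 𝓞 F) ∈ v.asIdeal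

open Classical in
/-- Among the primes not above prime numbers `≤ y` the order of `D` modulo `3` is `z i` at the prime `q i` and `0` at the
others; and at the primes above prime numbers `≤ y` the number `D` is equal to `D₀` up to local cubes. -/
structure Fits (y : ℕ) (D₀ : F) {k : ℕ} (z : Fin k → ZMod 3) (q : Fin k → HeightOneSpectrum (𝓞 F)) (D : F) :
    Prop where
  ne : D ≠ 0
  ram : ∀ v : HeightOneSpectrum (𝓞 F), ¬ Small y v → orderMod v D = ∑ i, if q i = v then z i else 0
  loc : ∀ v : HeightOneSpectrum (𝓞 F), Small y v → CubeAt v (D / D₀)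

/-- The ensemble: the tuples of `k` different primes `q i`, not above prime numbers `≤ y`, of norm `≤ X i`, to which a
`D` belongs. -/
def Ensemble (y : ℕ) (D₀ : F) {k : ℕ} (z : Fin k → ZMod 3) (X : Fin k → ℕ) : Set (Fin k → HeightOneSpectrum (𝓞 F)) :=
  {q | (Function.Injective q ∧ ∀ i, ¬ Small y (q i) ∧ Ideal.absNorm (q i).asIdeal ≤ X i) ∧
    ∃ D, Fits y D₀ z q D}

end Ensemble

/-- `P X` is true for all large `X 0`, for all `X 1` which are large in terms of `X 0`, …, for all `X (k-1)` which are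
large in terms of the others. -/
def Nested : (k : ℕ) → ((Fin k → ℕ) → Prop) → Prop
  | 0, P => P Fin.elim0
  | k + 1, P => Nested k fun X => ∀ᶠ x : ℕ in atTop, P (Fin.snoc (α := fun _ => ℕ) X x)

/-- The share of the subset `S` of the finite set `T`. -/
noncomputable def share {α : Type} (S T : Set α) : ℝ := (S.ncard : ℝ) / T.ncard

/-- The limit of the proportion of the symmetric matrices over `F_3` of corank `r`:
`∏_(i ≥ 0) (1 - 3^(-2i-1)) / ∏_(i = 1..r) (3^i - 1)`. -/
noncomputable def law (r : ℕ) : ℝ :=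
  (∏' i : ℕ, (1 - (1 / 3 : ℝ) ^ (2 * i + 1))) / ∏ i ∈ Finset.range r, ((3 : ℝ) ^ (i + 1) - 1)

section Proof

theorem nested_iff : ∀ (k : ℕ) (P : (Fin k → ℕ) → Prop), Nested k P ↔ Q283.LQ.Nest k P
  | 0, _ => Iff.rfl
  | k + 1, _ => nested_iff k _

theorem law_eq (r : ℕ) : law r = Q283.EN.al 3 r := by
  unfold law Q283.EN.al
  norm_num

variable {F : Type} [Field F] [NumberField F]

theorem fits_iff {y : ℕ} {D₀ : F} {k : ℕ} {z : Fin k → ZMod 3}
    {q : Fin k → HeightOneSpectrum (𝓞 F)} {D : F} : Fits y D₀ z q D ↔ Q7.LK.Fits 3 y D₀ z q D := by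
  constructor
  · intro h
    exact ⟨h.ne, h.ram, fun v hv => (Q7.LK.t_CPL 3 F v _).mpr (h.loc v hv)⟩
  · intro h
    exact ⟨h.ne, h.ram, fun v hv => (Q7.LK.t_CPL 3 F v _).mp (h.loc v hv)⟩

theorem sel_iff {D : F} {N : ℕ} : SelmerOrder D N ↔ Q283.EN.HasN 3 (Q283.EN.PC D) N := Iff.rfl

end Proof

/-- **Main result.** -/
theorem result (F : Type) [Field F] [NumberField F] (ω : F) (hω : IsPrimitiveRoot ω 3) :
    (∀ D : F, D ≠ 0 → (¬ ∃ x : F, D = x ^ 3) → ∃ r : ℕ, SelmerOrder D (3 ^ (r + 1)) ∧ Finite (ShaThree D) ∧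
      3 ^ rank D * Nat.card (ShaThree D) ≤ 9 ^ r ∧ (FiniteAndTrivial D ↔ r = 0)) ∧
    (639 / 1000 < law 0 ∧ law 0 < 6391 / 10000) ∧
    ∃ y₀ : ℕ, ∀ y, y₀ ≤ y → ∀ D₀ : F, D₀ ≠ 0 →
      (∀ (k : ℕ) (z : Fin k → ZMod 3) (q : Fin k → HeightOneSpectrum (𝓞 F)) (D D' : F),
        Fits y D₀ z q D → Fits y D₀ z q D' → ∃ x : F, D = D' * x ^ 3) ∧
      ∀ (R : ℕ) (ε : ℝ), 0 < ε → ∃ k₀ : ℕ, ∀ k, k₀ ≤ k → ∀ z : Fin k → ZMod 3, (∀ i, z i ≠ 0) → Nested k fun X =>
        (Ensemble y D₀ z X).Finite ∧ (Ensemble y D₀ z X).Nonempty ∧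
        |share {q ∈ Ensemble y D₀ z X | ∀ D, Fits y D₀ z q D → FiniteAndTrivial D} (Ensemble y D₀ z X) - law 0| ≤ ε ∧
        (∀ r ≤ R, |share {q ∈ Ensemble y D₀ z X | ∀ D, Fits y D₀ z q D → SelmerOrder D (3 ^ (r + 1))}
          (Ensemble y D₀ z X) - law r| ≤ ε) ∧
        ∀ (T : Finset (Fin k → HeightOneSpectrum (𝓞 F))) (N : (Fin k → HeightOneSpectrum (𝓞 F)) → ℕ),
          (∀ q, q ∈ T ↔ q ∈ Ensemble y D₀ z X) → (∀ q ∈ T, ∃ D, Fits y D₀ z q D ∧ SelmerOrder D (N q)) →
          (∑ q ∈ T, (N q : ℝ)) / T.card ≤ 6 + ε := by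
  refine ⟨fun D hD hc => ?_, ?_, ?_⟩
  · obtain ⟨r, h1, h2, h3, h4⟩ := Q283.EN.t_CPT F ω D hω hD hc
    refine ⟨r, h1, h2, ?_, h4⟩
    have h5 : (3 ^ r) ^ 2 = 9 ^ r := by
      rw [← pow_mul, mul_comm, pow_mul]
      norm_num
    rw [← h5]
    exact h3
  · have h := Q283.EN.t_NUMA.1
    rw [← law_eq] at h
    constructor
    · have := h.1
      norm_num at this ⊢
      linarith
    · have := h.2
      norm_num at this ⊢
      linarith
  obtain ⟨y0, hy0⟩ := Q283.EN.t_CMAIN F ω hω
  refine ⟨y0, fun y hy D₀ hD₀ => ⟨fun k z q D D' hD hD' => ?_, fun R ε hε => ?_⟩⟩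
  · obtain ⟨x, hx⟩ := (hy0 y hy D₀ hD₀).1 k z q D D' (fits_iff.mp hD) (fits_iff.mp hD')
    refine ⟨x, ?_⟩
    rw [← hx, mul_div_cancel₀ _ hD'.ne]
  obtain ⟨k0, hk1, hk0⟩ := (hy0 y hy D₀ hD₀).2 R (ε / 3) (by positivity)
  refine ⟨k0, fun k hk z hz => (nested_iff k _).mpr (Q7.LK.nest_mono k _ _ (fun X hX => ?_) (hk0 k hk z hz))⟩
  obtain ⟨hfin, hpos, hlaw, htriv, hmean⟩ := hX
  have hE : Ensemble y D₀ z X =
      {q ∈ (Q283.LQ.Box y X : Set (Fin k → HeightOneSpectrum (𝓞 F))) | ∃ D, Q7.LK.Fits 3 y D₀ z q D} := by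
    ext q
    simp only [Ensemble, Q283.LQ.Box, Set.mem_ofPred_eq, fits_iff]
    rfl
  have hEfin : (Ensemble y D₀ z X).Finite := by
    rw [hE]
    exact hfin.subset (fun q hq => hq.1)
  rw [← hE] at hpos
  have hne : (Ensemble y D₀ z X).Nonempty := by
    rw [← Set.ncard_pos hEfin]
    exact_mod_cast hpos
  have key : ∀ (Q : F → Prop) (c : ℝ), |({q ∈ (Q283.LQ.Box y X : Set (Fin k → HeightOneSpectrum (𝓞 F))) |
      (∃ D, Q7.LK.Fits 3 y D₀ z q D) ∧ ∀ D, Q7.LK.Fits 3 y D₀ z q D → Q D}.ncard : ℝ) -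
      c * ((Ensemble y D₀ z X).ncard : ℝ)| ≤ ε / 3 * ((Ensemble y D₀ z X).ncard : ℝ) →
      |share {q ∈ Ensemble y D₀ z X | ∀ D, Fits y D₀ z q D → Q D} (Ensemble y D₀ z X) - c| ≤ ε := by
    intro Q c h
    have h2 : {q ∈ Ensemble y D₀ z X | ∀ D, Fits y D₀ z q D → Q D} =
        {q ∈ (Q283.LQ.Box y X : Set (Fin k → HeightOneSpectrum (𝓞 F))) |
          (∃ D, Q7.LK.Fits 3 y D₀ z q D) ∧ ∀ D, Q7.LK.Fits 3 y D₀ z q D → Q D} := by
      rw [hE]
      ext q
      simp only [Set.mem_ofPred_eq, fits_iff]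
      tauto
    rw [h2]
    unfold share
    rw [div_sub' hpos.ne', abs_div, abs_of_pos hpos, div_le_iff₀ hpos, mul_comm ((Ensemble y D₀ z X).ncard : ℝ) c]
    refine le_trans h (mul_le_mul_of_nonneg_right ?_ hpos.le)
    linarith
  rw [← hE] at htriv
  refine ⟨hEfin, hne, ?_, fun r hr => ?_, fun T N hT hN => ?_⟩
  · rw [law_eq]
    exact key _ _ htriv
  · have h1 := hlaw r hr
    rw [← hE] at h1
    rw [law_eq]
    exact key _ _ h1
  · classical
    have hT' : ∀ q, q ∈ T ↔ q ∈ (Q283.LQ.Box y X : Set (Fin k → HeightOneSpectrum (𝓞 F))) ∧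
        ∃ D, Q7.LK.Fits 3 y D₀ z q D := by
      intro q
      rw [hT q, hE]
      rfl
    have hcard : 0 < (T.card : ℝ) := by
      obtain ⟨q, hq⟩ := hne
      exact_mod_cast Finset.card_pos.2 ⟨q, (hT q).2 hq⟩
    have hex : ∀ q, ∃ D : F, q ∈ T → Fits y D₀ z q D ∧ SelmerOrder D (N q) := by
      intro q
      by_cases hq : q ∈ T
      · obtain ⟨D, hD⟩ := hN q hq
        exact ⟨D, fun _ => hD⟩
      · exact ⟨0, fun h => absurd h hq⟩
    choose D hD using hex
    obtain ⟨r, h1, h2, -⟩ := hmean T D hT' (fun q hq => fits_iff.mp (hD q hq).1)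
    have h3 : ∀ q ∈ T, (N q : ℝ) = 3 * 3 ^ r q := by
      intro q hq
      have h4 := Q283.EN.hasN_uniq (fun a h => Q283.EN.pc_ne h) (hD q hq).2 (h1 q hq).1
      rw [h4]
      push_cast
      ring
    rw [Finset.sum_congr rfl h3, ← Finset.mul_sum, div_le_iff₀ hcard]
    nlinarith

end Pool.Agent.Results.MP_78d38b_nt.ExactLawCubicTwists
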