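import Mathlib
import Pool.Agent.Q283.T3.Wk

/-!
# Selmer and Tate-Shafarevich groups of several cubic twists at once: independence

`K` is the field of third roots of unity, `E_D : y² + D y = x³` for `D ≠ 0` in `𝓞 K`: these are the
cubic twists over `K` of `E : y² + y = x³` (`E_{D a³}` is isomorphic to `E_D`). Let `m_1, …, m_M` be
any elements of `𝓞 K`, `1` modulo `3`, with norms `1` modulo `9`, no two of which differ by a cube,
and let `B ≠ 0`. Let `D` run through ALL squarefree elements, `1` modulo `3`, with norm different from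
`1` modulo `9`, prime to `B`, ordered by the norm; there are at least `c X` of norm at most `X`.

* For every such `D` and every `k` the Selmer group of the endomorphism `√-3` of `E_{D m_k}` over `K`
  has order `3 ^ (r_k + 1)` for some `r_k`, the rank of `E_{D m_k}(K)` over `ℤ` is at most `2 r_k`, and
  `r_k = 0` if and only if `E_{D m_k}(K)` is finite and `Ш(E_{D m_k} / K)[3^∞] = 0`.
* The vectors `(r_1, …, r_M)` are equidistributed with respect to the product of `M` copies of the law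
  `prob r = ∏_{i ≥ 0} (1 - 3^{-(2 i + 1)}) / ((3 - 1) (9 - 1) ⋯ (3 ^ r - 1))` (the law of the corank of
  a large symmetric matrix over the field with three elements): for EVERY set `T` of vectors the
  proportion of the `D` with `(r_1, …, r_M)` in `T` tends to the measure of `T`. So the Selmer groups
  of the twists `E_{D m_1}, …, E_{D m_M}` of the same curve are asymptotically independent.
* For every set `A` of indices the proportion of the `D` such that `E_{D m_k}(K)` is finite and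
  `Ш(E_{D m_k} / K)[3^∞] = 0` for the `k` in `A` and for no other `k` tends to
  `c ^ |A| (1 - c) ^ (M - |A|)`, `c = prob 0 = 0.639...`. For `A` the set of all indices: the abelian
  variety `E_{D m_1} × ⋯ × E_{D m_M}` of dimension `M` has a finite Mordell-Weil group and a trivial
  `3`-primary part of `Ш` for the exact proportion `c ^ M`.
* For every `n` the lower density of the `D` for which the sum of the ranks of the `E_{D m_k}(K)` is at
  most `2 n` is at least the measure of the vectors of sum at most `n`, and this tends to `1`.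

The proof: the Selmer group of `E_{D m}` is the kernel of a Laplacian of cubic residue symbols of the
prime divisors of `D` and `m`; the difference of the matrices of two twists is supported on the primes
of the masks up to the weights on the diagonal. The law of the vector of coranks is computed from the
joint characters of the coranks by a large sieve for cubic symbols; the case `M = 1`, `m = 1`, `B = 1`
and the analytic estimates are from the starting library
(`MP_a3f657_nt.CubicTwistsThreeInfinity`, `Pool/Agent/Y703/XL`).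
-/

set_option autoImplicit false

namespace Pool.Agent.Results.MP_78d38b_nt.JointLawCubicTwists

open NumberField WeierstrassCurve Filter
open Pool.Agent.TH841.SH.D (Coch)
open Pool.Agent.TH841.NF.D (Sha IsShaCoc)
open scoped Classical

/-- The curve `E_D : y² + D y = x³`. -/
def curve {F : Type} [Field F] (D : F) : WeierstrassCurve F := ⟨0, 0, D, 0, 0⟩

variable {K : Type} [Field K] [NumberField K]

/-- The Selmer group of the endomorphism `√-3` of `E_D` over `K`: the continuous cocycles with values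
in its kernel `{0, (0, 0), (0, -D)}` (the Galois group acts trivially on it, so these cocycles are the
classes) that are coboundaries in `E_D` at all the places of `K`. -/
def Sel (D : 𝓞 K) : Set (Coch (curve (D : K))) :=
  {f | IsShaCoc (curve (D : K)) f ∧ ∀ σ, f σ = 0 ∨ ∃ y h, f σ = Affine.Point.some 0 y h}

/-- The rank of `E_D(K)` over `ℤ`. -/
noncomputable def rank (D : 𝓞 K) : ℕ := Module.finrank ℤ (curve (D : K)).toAffine.Point

/-- `E_D(K)` is finite and the `3`-primary part of `Ш(E_D / K)` is trivial. -/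
def FiniteAndTrivial (D : 𝓞 K) : Prop :=
  Finite (curve (D : K)).toAffine.Point ∧ ∀ (n : ℕ) (x : Sha (curve (D : K))), 3 ^ n • x = 0 → x = 0

/-- `D` is squarefree and `1` modulo `3`, and its norm is not `1` modulo `9`. -/
def InClass (D : 𝓞 K) : Prop :=
  (3 : 𝓞 K) ∣ D - 1 ∧ Squarefree D ∧ ¬ (9 : ℤ) ∣ Algebra.norm ℤ D - 1

/-- No prime divides both `D` and `B`. -/
def PrimeTo (D B : 𝓞 K) : Prop := ∀ π : 𝓞 K, Prime π → π ∣ D → ¬ π ∣ B

/-- The `D` of the class that are prime to `B`, of norm at most `X`. -/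
def upTo (B : 𝓞 K) (X : ℕ) : Set (𝓞 K) :=
  {D : 𝓞 K | Algebra.norm ℤ D ≤ X ∧ InClass D ∧ PrimeTo D B}

/-- The proportion of the `D` in `upTo B X` with the property `P`. -/
noncomputable def proportion (B : 𝓞 K) (P : 𝓞 K → Prop) (X : ℕ) : ℝ :=
  ({D : 𝓞 K | D ∈ upTo B X ∧ P D}.ncard : ℝ) / ((upTo B X).ncard : ℝ)

/-- The `m_k` are `1` modulo `3`, their norms are `1` modulo `9`, and no `m_k m_l²`, `k ≠ l`, is a
cube. -/
structure Masks {M : ℕ} (m : Fin M → 𝓞 K) : Prop where
  three : ∀ k, (3 : 𝓞 K) ∣ m k - 1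
  nine : ∀ k, (9 : ℤ) ∣ Algebra.norm ℤ (m k) - 1
  ne : ∀ k l, k ≠ l → ¬ ∃ x, x ^ 3 = m k * m l ^ 2

/-- `∏_{i ≥ 0} (1 - 3^{-(2 i + 1)}) / ((3 - 1) (9 - 1) ⋯ (3 ^ r - 1))`. -/
noncomputable def prob (r : ℕ) : ℝ :=
  (∏' i : ℕ, (1 - (1 / 3 : ℝ) ^ (2 * i + 1))) / ∏ i ∈ Finset.range r, ((3 : ℝ) ^ (i + 1) - 1)

/-- The measure of a set of vectors for the product of the laws `prob`. -/
noncomputable def measure {M : ℕ} (T : Set (Fin M → ℕ)) : ℝ := ∑' r : T, ∏ k, prob (r.1 k)

theorem result (K : Type) [Field K] [NumberField K] [IsCyclotomicExtension {3} ℚ K]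
    (B : 𝓞 K) (hB : B ≠ 0) (M : ℕ) (m : Fin M → 𝓞 K) (hm : Masks m) :
    (∃ c : ℝ, 0 < c ∧ ∃ X₀ : ℕ, ∀ X : ℕ, X₀ ≤ X → c * X ≤ ((upTo B X).ncard : ℝ)) ∧
    (∀ D : 𝓞 K, InClass D → ∀ k, ∃ r : ℕ, (Sel (D * m k)).ncard = 3 ^ (r + 1) ∧
      rank (D * m k) ≤ 2 * r ∧ (r = 0 ↔ FiniteAndTrivial (D * m k))) ∧
    (∀ T : Set (Fin M → ℕ), Tendsto
      (proportion B fun D => ∃ r ∈ T, ∀ k, (Sel (D * m k)).ncard = 3 ^ (r k + 1))
      atTop (nhds (measure T))) ∧
    (∀ A : Finset (Fin M), Tendsto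
      (proportion B fun D => ∀ k, (FiniteAndTrivial (D * m k) ↔ k ∈ A))
      atTop (nhds (prob 0 ^ A.card * (1 - prob 0) ^ (M - A.card)))) ∧
    (∀ n : ℕ, ∀ ε : ℝ, 0 < ε → ∃ X₀ : ℕ, ∀ X : ℕ, X₀ ≤ X →
      measure {r : Fin M → ℕ | ∑ k, r k ≤ n} - ε <
        proportion B (fun D => ∑ k, rank (D * m k) ≤ 2 * n) X) ∧
    Tendsto (fun n : ℕ => measure {r : Fin M → ℕ | ∑ k, r k ≤ n}) atTop (nhds 1) ∧
    HasSum prob 1 ∧ 0.639 < prob 0 ∧ prob 0 < 0.6391 := by
  have hm' : Q283.T3B.Msk m := ⟨hm.three, hm.nine, hm.ne⟩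
  have e1 : ∀ (P : 𝓞 K → Prop) (X : ℕ), {D : 𝓞 K | D ∈ upTo B X ∧ P D} =
      {D : 𝓞 K | Algebra.norm ℤ D ≤ X ∧ InClass D ∧ PrimeTo D B ∧ P D} := by
    intro P X
    ext D
    exact ⟨fun h => ⟨h.1.1, h.1.2.1, h.1.2.2, h.2⟩, fun h => ⟨⟨h.1, h.2.1, h.2.2.1⟩, h.2.2.2⟩⟩
  have h3 : ∀ T : Set (Fin M → ℕ), Tendsto
      (proportion B fun D => ∃ r ∈ T, ∀ k, (Sel (D * m k)).ncard = 3 ^ (r k + 1))
      atTop (nhds (measure T)) := by
    intro T
    refine (Q283.T3B.law_T K m hm' B hB T).congr fun X => ?_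
    unfold proportion
    rw [e1]
    rfl
  have h2 : ∀ D : 𝓞 K, InClass D → ∀ k, ∃ r : ℕ, (Sel (D * m k)).ncard = 3 ^ (r + 1) ∧
      rank (D * m k) ≤ 2 * r ∧ (r = 0 ↔ FiniteAndTrivial (D * m k)) := fun D hD k =>
    Q283.T3B.one_D hD (hm.three k) (hm.nine k)
  have hp : prob 0 = Pool.Agent.Y703.XK.c9 := by
    unfold prob
    rw [Finset.range_zero, Finset.prod_empty, div_one]
    rfl
  have hsum : HasSum (fun r : Fin M → ℕ => ∏ k, prob (r k)) 1 := Q283.T3B.sum_pi M
  have hpos : ∀ r : Fin M → ℕ, 0 ≤ ∏ k, prob (r k) := fun r =>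
    Finset.prod_nonneg fun k _ => Q283.T3B.cr_nonneg (r k)
  refine ⟨Q283.T3B.low_K K B hB, h2, h3, fun A => ?_, fun n ε hε => ?_, ?_,
    Q283.T3B.sum_cr, ?_⟩
  · rw [hp]
    refine (Q283.T3B.law_A K m hm' B hB A).congr fun X => ?_
    unfold proportion
    rw [e1]
    rfl
  · have h4 := (tendsto_order.1 (h3 {r : Fin M → ℕ | ∑ k, r k ≤ n})).1
      (measure {r : Fin M → ℕ | ∑ k, r k ≤ n} - ε) (by linarith)
    obtain ⟨X₀, h5⟩ := eventually_atTop.1 h4
    refine ⟨X₀, fun X hX => (h5 X hX).trans_le ?_⟩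
    refine div_le_div_of_nonneg_right ?_ (Nat.cast_nonneg _)
    rw [Nat.cast_le]
    refine Set.ncard_le_ncard ?_ ((Q283.T3B.fin_K K B hB X).subset fun D hD => hD.1)
    rintro D ⟨hD, r, hr, h6⟩
    refine ⟨hD, (Finset.sum_le_sum fun k _ => ?_).trans
      (by rw [← Finset.mul_sum]; exact Nat.mul_le_mul_left 2 hr : ∑ k, 2 * r k ≤ 2 * n)⟩
    obtain ⟨s, h7, h8, -⟩ := h2 D hD.2.1 k
    have h9 : s = r k := by
      have := Nat.pow_right_injective (by norm_num : 2 ≤ 3) (h7.symm.trans (h6 k))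
      omega
    rw [← h9]
    exact h8
  · rw [tendsto_order]
    constructor
    · intro a ha
      obtain ⟨F, hF⟩ := eventually_atTop.1 ((tendsto_order.1 hsum).1 a ha)
      filter_upwards [eventually_ge_atTop (F.sup fun r => ∑ k, r k)] with n hn
      refine (hF F le_rfl).trans_le ?_
      have h4 : HasSum (fun r : {r : Fin M → ℕ // ∑ k, r k ≤ n} => ∏ k, prob (r.1 k))
          (measure {r : Fin M → ℕ | ∑ k, r k ≤ n}) :=
        (hsum.summable.subtype {r : Fin M → ℕ | ∑ k, r k ≤ n}).hasSum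
      have h5 : ∀ r ∈ F, ∑ k, r k ≤ n := fun r hr =>
        (Finset.le_sup (f := fun r : Fin M → ℕ => ∑ k, r k) hr).trans hn
      have h6 := sum_le_hasSum (F.subtype fun r => ∑ k, r k ≤ n) (fun r _ => hpos r.1) h4
      refine le_trans (le_of_eq ?_) h6
      rw [Finset.sum_subtype_of_mem (fun r : Fin M → ℕ => ∏ k, prob (r k)) h5]
    · intro a ha
      refine Eventually.of_forall fun n => lt_of_le_of_lt ?_ ha
      rw [← hsum.tsum_eq]
      exact hsum.summable.tsum_subtype_le _ _ hpos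
  · obtain ⟨-, -, -, h4, h5⟩ := Pool.Agent.Y703.XL.t_C9
    rw [hp]
    exact ⟨h4, h5⟩

end Pool.Agent.Results.MP_78d38b_nt.JointLawCubicTwists
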