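import Mathlib
import Pool.Agent.Q155.PC.Const
import Pool.Agent.Q155.BS.Main

/-!
# Towers of fields of rank zero in which the Tate–Shafarevich group grows

`E_N : y² + N y = x³`, a curve over `ℚ`, `3`-isogenous to `x³ + y³ = N`. Let `D` be a finite
non-empty family of cube-free numbers prime to `3`, not `±1` modulo `9`, such that exactly one prime
`q = 2` modulo `3` divides each of them, for which the conjecture is known over `ℚ` in the following
form (`Conclusion`): `E_{D_i}(ℚ)` is finite, `Ш(E_{D_i}/ℚ)[3^∞] = 0`, `L(E_{D_i}, 1) ≠ 0`, and the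
`3`-part of the formula holds. (If `D_i = q` or `q²`, `q = 2, 5` modulo `9` a prime, this is true.)
Let `ω(D_i)` be the number of the primes that divide `D_i`.

There is a set `T` of finite sequences `(ℓ_1, …, ℓ_k)` of distinct primes `= 1` modulo `9`, closed
under initial segments, containing the empty sequence, such that:

* **Fields.** For `(ℓ_1, …, ℓ_k)` in `T`, for every `i` and EVERY number field `F` generated by cube
  roots of `ℓ_1, …, ℓ_k` and the cube roots of unity in `F`, that is, `F = ℚ(∛ℓ_1, …, ∛ℓ_k)`, of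
  degree `3 ^ k` and not Galois over `ℚ`, and its Galois closure, of degree `2 · 3 ^ k`:
  `E_{D_i}(F)` is finite, the Euler product of `L(E_{D_i}/F, s)` over the places of `F` that do not
  divide `6 D_i ℓ_1 ⋯ ℓ_k` has an entire continuation which is not zero at `s = 1` (the other Euler
  factors are finite and different from zero at `1`, so rank = order of vanishing = `0`), every
  element of `3`-power order of `Ш(E_{D_i}/F)` is killed by `3 ^ k`, and
  **`Ш(E_{D_i}/F)` contains a subgroup isomorphic to `(ℤ/3ℤ)^{k - ω(D_i)}`.**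
* **Branching law.** For every sequence in `T` the proportion of the primes `ℓ` such that
  `(ℓ_1, …, ℓ_k, ℓ)` is in `T`, among the primes `= 1` modulo `9` that do not divide the `D_i` and
  are not among the `ℓ_j` (a third of the primes `= 1` modulo `3`), exists and is POSITIVE; it is
  `(2 / 3) ^ m / 9 ^ k` if every `D_i` is the power of a prime, with `m` the number of the primes
  dividing the `D_i`. In particular there are infinite sequences all of whose initial segments are in
  `T`.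

So along infinite towers `F_0 ⊂ F_1 ⊂ …` of fields generated by cube roots of primes the rank stays
zero (and the `L`-values do not vanish), the `3`-primary part of `Ш` has finite exponent at every
step, but its order tends to infinity. The classes are explicit: for `x` in `(ℤ/3ℤ)^k` satisfying one
linear condition for each prime dividing `D_i`, the cocycle is a character of `Gal(F̄/F)` that comes
from the cubic character of `Gal(ℚ̄/ℚ)` attached to `∏ (ρ_j ρ̄_j²)^{x_j}`, `ℓ_j = ρ_j ρ̄_j` in the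
Eisenstein integers, times the point `(0, 0)` of order three.
-/

set_option autoImplicit false

open scoped Classical

namespace Pool.Agent.Results.MP_78d38b_nt.LargeShaTowers

open NumberField IsDedekindDomain
open Pool.Agent.Y703.CT (WD EQ IsL ThreeUnit tamProd)
open Pool.Agent.TH841.SH.D (Sha)
open Pool.Agent.W97.MT (IsGloballyMinimal)
open Pool.Agent.Y700 (Omega)

/-- The curve `E_N : y² + N y = x³` over `ℚ`. -/
def curve (N : ℕ) : WeierstrassCurve ℚ := ⟨0, 0, N, 0, 0⟩

/-- `D` is prime to `3` and cube-free, and exactly one prime `q = 2` modulo `3` divides it. -/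
def Base (D : ℕ) : Prop :=
  D ≠ 0 ∧ ¬ 3 ∣ D ∧ (∀ p : ℕ, p.Prime → ¬ p ^ 3 ∣ D) ∧
    ∃ q : ℕ, q.Prime ∧ q % 3 = 2 ∧ q ∣ D ∧ ∀ p : ℕ, p.Prime → p ∣ D → p ≠ q → p % 3 = 1

/-- The conclusion for `E_D : y² + D y = x³` over `ℚ` (`WD D`, over `ℚ` it is `EQ (WD D)`): the
equation is globally minimal, `E_D(ℚ)` is finite, `Ш(E_D/ℚ)` has no element of order `3`, and there is
an entire function `f` which is the `L`-series for `Re s > 3/2` (`IsL`), with `f 1 ≠ 0` and
`f 1 = u Ω ∏ c_p / |E_D(ℚ)_tors|²` with a unit `u` at `3`. -/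
def Conclusion (D : ℕ) : Prop :=
  IsGloballyMinimal (WD D) ∧
  (Finite (EQ (WD D)).toAffine.Point ∧
    ∀ (n : ℕ) (x : Sha (EQ (WD D))), 3 ^ n • x = 0 → x = 0) ∧
  ∃ f : ℂ → ℂ, IsL (WD D) f ∧ f 1 ≠ 0 ∧ ∃ u : ℂ,
    f 1 = u * (((Omega (WD D) : ℝ) : ℂ) * (tamProd (WD D) : ℂ) /
      (Nat.card (AddCommGroup.torsion (EQ (WD D)).toAffine.Point) : ℂ) ^ 2) ∧ ThreeUnit u

/-- `a_v(E_N)`: the norm of `v` minus the number of the affine points of `y² + N y = x³` over the
residue field of `v`. -/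
noncomputable def a {F : Type} [Field F] [NumberField F] (N : ℕ) (v : HeightOneSpectrum (𝓞 F)) : ℤ :=
  ((Ideal.absNorm v.asIdeal : ℕ) : ℤ) -
    ((Nat.card {x : (𝓞 F ⧸ v.asIdeal) × (𝓞 F ⧸ v.asIdeal) //
      x.2 ^ 2 + (N : 𝓞 F ⧸ v.asIdeal) * x.2 = x.1 ^ 3} : ℕ) : ℤ)

/-- The Euler factor of `L(E_N/F, s)` at `v`; it is replaced by `1` if `v` divides `M`. -/
noncomputable def factor {F : Type} [Field F] [NumberField F] (M N : ℕ) (s : ℂ)
    (v : HeightOneSpectrum (𝓞 F)) : ℂ :=
  if ((M : ℕ) : 𝓞 F) ∈ v.asIdeal then 1 else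
    (1 - ((a N v : ℤ) : ℂ) * ((Ideal.absNorm v.asIdeal : ℕ) : ℂ) ^ (-s) +
      ((Ideal.absNorm v.asIdeal : ℕ) : ℂ) ^ (1 - 2 * s))⁻¹

/-- The Tate–Shafarevich group of `E_N` over `F`: the group of the continuous cocycles
`Gal(F̄/F) → E_N(F̄)` which are coboundaries at all finite and infinite places of `F`, modulo the
coboundaries. -/
abbrev ShaF (N : ℕ) (F : Type) [Field F] [NumberField F] : Type :=
  Pool.Agent.TH841.NF.D.Sha ((curve N).baseChange F)

/-- `E_N(F)` is finite, there is an entire function `L` equal to the Euler product of `E_N` over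
the places of `F` that do not divide `M` for `Re s > 3/2`, with `L(1) ≠ 0`, every element of
`3`-power order of `Ш(E_N/F)` is killed by `3 ^ k`, and `(ℤ/3ℤ)^r` is isomorphic to a subgroup of
`Ш(E_N/F)`. -/
def OverField (k M N r : ℕ) (F : Type) [Field F] [NumberField F] : Prop :=
  Finite ((curve N).baseChange F).toAffine.Point ∧
    (∃ L : ℂ → ℂ, Differentiable ℂ L ∧
      (∀ s : ℂ, 3 / 2 < s.re → HasProd (factor (F := F) M N s) (L s)) ∧ L 1 ≠ 0) ∧
    (∀ (n : ℕ) (x : ShaF N F), 3 ^ n • x = 0 → 3 ^ k • x = 0) ∧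
    ∃ f : (Fin r → ZMod 3) →+ ShaF N F, Function.Injective f

/-- The number of the primes `ℓ = 1` modulo `3` up to `X` with the property `S`. -/
noncomputable def count (S : ℕ → Prop) (X : ℕ) : ℕ :=
  ((Finset.range (X + 1)).filter fun l => (l.Prime ∧ l % 3 = 1) ∧ S l).card

/-- The allowed new primes. -/
def Allowed {ι : Type} (D : ι → ℕ) {k : ℕ} (l : Fin k → ℕ) (m : ℕ) : Prop :=
  m % 9 = 1 ∧ (∀ i, ¬ m ∣ D i) ∧ ∀ j, m ≠ l j

/-- All the prime factors of the members of a family. -/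
def primes {ι : Type} [Fintype ι] (N : ι → ℕ) : Finset ℕ :=
  Finset.univ.biUnion fun i => (N i).primeFactors

theorem curve_eq (N : ℕ) :
    curve N = Pool.Agent.Y703.CT.EQ (Pool.Agent.Y703.CT.WD ((N : ℕ) : ℤ)) := by
  ext <;> simp [curve, Pool.Agent.Y703.CT.WD]

/-- infinite sequences in a tree without leaves -/
theorem exists_branch (T : ∀ k : ℕ, (Fin k → ℕ) → Prop) (h0 : T 0 Fin.elim0)
    (hs : ∀ (k : ℕ) (l : Fin k → ℕ), T k l →
      ∃ m, T (k + 1) (Fin.snoc (α := fun _ => ℕ) l m)) :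
    ∃ m : ℕ → ℕ, ∀ k, T k fun j => m j := by
  choose! nx hnx using hs
  let s : (k : ℕ) → Fin k → ℕ := fun k =>
    Nat.rec (motive := fun k => Fin k → ℕ) Fin.elim0
      (fun k l => Fin.snoc (α := fun _ => ℕ) l (nx k l)) k
  have hT : ∀ k, T k (s k) := by
    intro k
    induction k with
    | zero => exact h0
    | succ k ih => exact hnx k _ ih
  have hsk : ∀ k, s (k + 1) = Fin.snoc (α := fun _ => ℕ) (s k) (nx k (s k)) := fun k => rfl
  refine ⟨fun k => nx k (s k), fun k => ?_⟩
  have h1 : s k = fun j : Fin k => nx j (s j) := by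
    induction k with
    | zero => exact funext fun j => j.elim0
    | succ k ih =>
      funext j
      rw [hsk]
      refine Fin.lastCases ?_ (fun j => ?_) j
      · rw [Fin.snoc_last]
        rfl
      · rw [Fin.snoc_castSucc, ih]
        rfl
  rw [← h1]
  exact hT k

theorem result (ι : Type) [Fintype ι] [Nonempty ι] (D : ι → ℕ) (hD : ∀ i, Base (D i))
    (h9 : ∀ i, D i % 9 ≠ 1 ∧ D i % 9 ≠ 8)
    (hC : (∀ i, Conclusion (D i)) ∨ ∀ i, (D i).primeFactors.card = 1) :
    ∃ T : ∀ k : ℕ, (Fin k → ℕ) → Prop,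
      T 0 Fin.elim0 ∧
      -- the sequences and the fields
      (∀ (k : ℕ) (l : Fin k → ℕ), T k l →
        (∀ j, (l j).Prime ∧ l j % 9 = 1 ∧ ∀ i, ¬ l j ∣ D i) ∧ Function.Injective l ∧
        ∀ (i : ι) (F : Type) [Field F] [NumberField F] (θ : Fin k → F),
          (∀ j, θ j ^ 3 = (l j : F)) →
          IntermediateField.adjoin ℚ ({x : F | x ^ 3 = 1} ∪ Set.range θ) = ⊤ →
          3 ^ k ∣ Module.finrank ℚ F ∧
            OverField k (6 * D i * ∏ j, l j) (D i) (k - (D i).primeFactors.card) F) ∧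
      -- the branching law
      (∀ (k : ℕ) (l : Fin k → ℕ) (m : ℕ), T (k + 1) (Fin.snoc (α := fun _ => ℕ) l m) → T k l) ∧
      (∀ (k : ℕ) (l : Fin k → ℕ), T k l → ∃ δ : ℝ, 0 < δ ∧
        Filter.Tendsto (fun X : ℕ => (count (Allowed D l) X : ℝ) / (count (fun _ => True) X : ℝ))
          Filter.atTop (nhds (1 / 3)) ∧
        Filter.Tendsto (fun X : ℕ =>
          (count (fun m => T (k + 1) (Fin.snoc (α := fun _ => ℕ) l m)) X : ℝ) /
            (count (Allowed D l) X : ℝ)) Filter.atTop (nhds δ) ∧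
        ((∀ i, (D i).primeFactors.card = 1) → δ = (2 / 3) ^ (primes D).card / 9 ^ k)) ∧
      -- infinite towers
      ∃ m : ℕ → ℕ, ∀ k, T k fun j => m j := by
  have hCl : ∀ i, Pool.Agent.Y703.CT.Cls (D i) := fun i =>
    (Q283.TQ.cls_iff ⟨⟨(hD i).1, (hD i).2.1, (hD i).2.2.1⟩, (hD i).2.2.2⟩).2 (h9 i)
  have hN : ∀ i, Pool.Agent.Y703.CT.NoSplit (D i) := by
    rcases hC with h | h
    · exact fun i => (Q283.TQ.con_iff (hCl i)).1 (h i)
    · exact fun i => Q155.PC.nosplit_prime (h i)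
  have h0T : Q155.PC.Lv D (Fin.elim0 : Fin 0 → ℕ) := by
    refine ⟨fun j => j.elim0, fun i => i.elim0, fun i e => ?_⟩
    have h0 : Q283.MC.tw (D i) Fin.elim0 e = D i := by
      unfold Q283.MC.tw
      rw [Fin.prod_univ_zero, mul_one]
    rw [h0]
    exact (Q283.TQ.con_iff (hCl i)).2 (hN i)
  refine ⟨fun k l => Q155.PC.Lv D l, h0T, ?_, ?_, ?_, ?_⟩
  · intro k l hl
    refine ⟨hl.1, hl.2.1, fun i F _ _ θ hθ hgen => ?_⟩
    obtain ⟨k1, ⟨k2, L, k3, k4, k5⟩, k6⟩ := Q155.PC.field (hCl i).1.1 (fun j => (hl.1 j).1)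
      hl.2.1 (fun e => Q155.PC.cls_TF hCl hl (i, e)) (fun e => Q155.PC.ns_TF hCl hl (i, e))
      F θ hθ hgen
    obtain ⟨f, hf⟩ := Q155.BS.sha_big (fun j => (hl.1 j).1)
      (fun j => by have := (hl.1 j).2.1; omega) hl.2.1 (hCl i) (fun j => (hl.1 j).2.2 i)
      (fun e => (Q283.MC.conc (Q155.PC.cls_TF hCl hl (i, e)) (Q155.PC.ns_TF hCl hl (i, e))).1)
      hθ hgen
    refine ⟨k1, ?_, ⟨L, k3, fun s hs => ?_, k5⟩, ?_, ?_⟩
    · rw [curve_eq]
      exact k2
    · exact (k4 s hs).congr_fun fun v => rfl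
    · unfold ShaF
      rw [curve_eq]
      exact k6
    · unfold ShaF
      rw [curve_eq]
      exact ⟨f, hf⟩
  · intro k l m h
    refine ⟨fun j => ?_, ?_, fun i e => ?_⟩
    · have := h.1 j.castSucc
      rwa [Fin.snoc_castSucc] at this
    · intro a b hab
      have h1 : (Fin.snoc (α := fun _ => ℕ) l m : Fin (k + 1) → ℕ) a.castSucc =
          (Fin.snoc (α := fun _ => ℕ) l m : Fin (k + 1) → ℕ) b.castSucc := by
        rw [Fin.snoc_castSucc, Fin.snoc_castSucc, hab]
      exact Fin.castSucc_injective k (h.2.1 h1)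
    · have h1 := h.2.2 i (Fin.snoc (α := fun _ => ZMod 3) e 0)
      rw [Q155.PC.tw_snoc, Fin.snoc_last, ZMod.val_zero, pow_zero, mul_one] at h1
      simp only [Fin.snoc_castSucc] at h1
      exact h1
  · intro k l hl
    obtain ⟨g1, g2, g3⟩ := Q155.PC.branch hCl hl
    exact ⟨_, g3, g1, g2, fun h => Q155.PC.c_pp hCl h hl⟩
  · refine exists_branch _ h0T fun k l hl => ?_
    obtain ⟨-, g2, g3⟩ := Q155.PC.branch hCl hl
    by_contra hcon
    push Not at hcon
    have hz : (fun X : ℕ => (Q283.TQ.CN (fun m => Q155.PC.Lv D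
        (Fin.snoc (α := fun _ => ℕ) l m)) X : ℝ) / (Q283.TQ.CN (Q155.PC.NX D l) X : ℝ)) =
        fun _ => 0 := by
      funext X
      have h1 : Q283.TQ.CN (fun m => Q155.PC.Lv D (Fin.snoc (α := fun _ => ℕ) l m)) X = 0 := by
        unfold Q283.TQ.CN
        rw [Finset.card_eq_zero, Finset.filter_eq_empty_iff]
        exact fun m _ h => hcon m h.2
      rw [h1, Nat.cast_zero, zero_div]
    rw [hz] at g2
    exact g3.ne' (tendsto_nhds_unique g2 tendsto_const_nhds)

end Pool.Agent.Results.MP_78d38b_nt.LargeShaTowers
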