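import Pool.Agent.Q161.ESN.Fin

/-!
# All joint moments of `2^rank * #Ш[2^n]` over ALL quadratic twists over EVERY number field are bounded

Let `F` be a number field and `E : y² = x³ + a x + b` an elliptic curve over `F` without `F`-rational point of order
two, and let `E_D : y² = x³ + a D² x + b D³`, `D ∈ F^*`, be its quadratic twists.  We prove that for all `n, k` there is a
constant `C` such that for all `X ≥ 1`

  `∑ (2^rank(E_D(F)) * #Ш(E_D/F)[2^n])^k ≤ C X`,  `D ∈ F^*/F^*²`, `oddNorm D ≤ X`,

and more generally the joint moments for finitely many such curves over `F` are bounded.  There are between `X/C` and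
`C X` such classes `D`; so the average over all quadratic twists is bounded, and the proportion of the twists with
`#Ш(E_D/F)[2^n] ≥ T` is `O_(k,n)(T^(-k))` for every `k`.

`oddNorm D` is the norm of the product of the prime ideals of `F` at which the valuation of `D` is odd; it depends only on
the class of `D` modulo squares, that is, on the twist.  `Twists X 𝒟`: the elements of the finite set `𝒟` are nonzero, of
`oddNorm` at most `X` and in different classes modulo squares; `AllTwists X 𝒟`: in addition `𝒟` meets every class of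
nonzero elements of `oddNorm` at most `X`.

The proof (projects ESM, ESF, ESN; `Pool/Agent/Q161`) bounds the joint moments of the orders of the 2-Selmer groups: the
2-descent over `F`, a system of quadratic characters of ray classes of `F` and of fields containing `F` attached to the
elements of a finite semisimple Galois module, and high moments of these characters.
Project of helper161 with helpers 14, 24, 26, 38, 63, 65, 68, 79, 92, 96, 121, 123, 124, 129, 147, 149, 150, 151, 153, 166,
177, 182, 184, 190, 193, 195, 208, 211, 223, 224, 237, 238, 241, 261, 275, 285, 299.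
-/

set_option autoImplicit false

namespace Pool.Agent.Results.MP_78d38b_nt.ShaMomentsAllTwists

open Finset NumberField Pool.Agent.Q161.ESN

open scoped Classical

/-- the product of the numbers `2^rank * #Ш[2^n]` over `F` of the twists by `D` of the curves `y² = x³ + a i x + b i` -/
noncomputable def shaProd {F : Type} [Field F] [NumberField F] {r : ℕ} (a b : Fin r → F) (n : ℕ)
    (D : F) : ℝ :=
  ∏ i, ((2 : ℝ) ^ rank (a i) (b i) D * Nat.card (ShaPow (a i) (b i) D n))

/-- Let `F` be any number field.  (A) For all `X ≥ 1` there are complete sets of representatives of the quadratic twists up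
to `X`, and they have between `X/C` and `C X` elements, `C` depending on `F`.  (B) Let `E_i : y² = x³ + a_i x + b_i`,
`1 ≤ i ≤ r`, be elliptic curves over `F` without `F`-rational points of order two, `n ≥ 0`, and `P(D)` the product of the
`2^rank(E_(i,D)(F)) * #Ш(E_(i,D)/F)[2^n]` for their twists by `D`.  The groups `Ш[2^n]` are finite, and for every `k` there is
a `C` such that for all `X ≥ 1` and all finite sets `𝒟` of representatives of different twists up to `X`: (1) `∑ P(D)^k ≤ C X`;
(2) for all `T > 0` the number of the `D ∈ 𝒟` with `P(D) ≥ T` is at most `C X / T^k`; (3) `∏ P(D)^k ≤ (C X / |𝒟|)^|𝒟|` if `𝒟` is not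
empty; and if `𝒟` is complete (4) the mean of `P(D)^k` over `𝒟` is at most `C` and the proportion of the `D` with `P(D) ≥ T` at
most `C / T^k`. -/
theorem result (F : Type) [Field F] [NumberField F] :
    (∃ C : ℝ, 0 < C ∧ ∀ X : ℝ, 1 ≤ X → (∃ 𝒟 : Finset F, AllTwists X 𝒟) ∧
      ∀ 𝒟 : Finset F, AllTwists X 𝒟 → X / C ≤ 𝒟.card ∧ (𝒟.card : ℝ) ≤ C * X) ∧
    ∀ (r : ℕ) (a b : Fin r → F), (∀ i, ∀ x : F, x ^ 3 + a i * x + b i ≠ 0) → ∀ n : ℕ,
      (∀ i, ∀ D : F, D ≠ 0 → Finite (ShaPow (a i) (b i) D n)) ∧
      ∀ k : ℕ, ∃ C : ℝ, 0 < C ∧ ∀ X : ℝ, 1 ≤ X → ∀ 𝒟 : Finset F,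
        (Twists X 𝒟 → (∑ D ∈ 𝒟, shaProd a b n D ^ k ≤ C * X) ∧
          (∀ T : ℝ, 0 < T → ((𝒟.filter (fun D => T ≤ shaProd a b n D)).card : ℝ) ≤ C * X / T ^ k) ∧
          (𝒟.Nonempty → ∏ D ∈ 𝒟, shaProd a b n D ^ k ≤ (C * X / 𝒟.card) ^ 𝒟.card)) ∧
        (AllTwists X 𝒟 → (∑ D ∈ 𝒟, shaProd a b n D ^ k ≤ C * 𝒟.card) ∧
          ∀ T : ℝ, 0 < T → ((𝒟.filter (fun D => T ≤ shaProd a b n D)).card : ℝ) ≤
            C * 𝒟.card / T ^ k) := by
  refine ⟨t_family F, fun r a b h n => ⟨fun i D hD => (shaPow_le t_fin (h i) hD n).1,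
    fun k => bounded (s := shaProd a b n)
      (t := fun D => (∏ i, (selOrder (a i) (b i) D : ℝ)) ^ (n + 1)) (fun D hD => ⟨?_, ?_⟩) ?_⟩⟩
  · exact prod_nonneg fun _ _ => by positivity
  · rw [← prod_pow]
    refine prod_le_prod (fun _ _ => by positivity) fun i _ => ?_
    exact_mod_cast (shaPow_le t_fin (h i) hD n).2
  · simpa only [← pow_mul] using moments t_goal (Fin r) F a b h ((n + 1) * k)

end Pool.Agent.Results.MP_78d38b_nt.ShaMomentsAllTwists
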